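import Mathlib

/-!
# Rational points on components of surface group character varieties: a negative answer

`G` is the projective unitary group `PU_3` attached to the quadratic extension `ℚ(i)/ℚ`, that is the
group of automorphisms of the algebra with involution `(M_3(ℚ(i)), conjugate transpose)`.  It is a
connected, absolutely simple (adjoint) algebraic group over `ℚ`.  Its group of real points is the
compact group `PU(3) = U(3) / U(1)`; a class `[u]` is a rational point iff conjugation by `u` maps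
`M_3(ℚ(i))` into itself.
-/

set_option autoImplicit false

open Matrix

namespace Pool.Agent.Lib.MP_52c00a_gt

/-- The unitary group `U(3)`. -/
abbrev U3 : Type := Matrix.unitaryGroup (Fin 3) ℂ

/-- The scalar matrices in `U(3)`. -/
def scalars : Subgroup U3 where
  carrier := {u | ∃ z : ℂ, (u : Matrix (Fin 3) (Fin 3) ℂ) = z • (1 : Matrix (Fin 3) (Fin 3) ℂ)}
  mul_mem' := by
    rintro u v ⟨z, hz⟩ ⟨w, hw⟩
    refine ⟨z * w, ?_⟩
    rw [Submonoid.coe_mul, hz, hw, smul_mul_smul_comm, mul_one]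
  one_mem' := ⟨1, by simp⟩
  inv_mem' := by
    rintro u ⟨z, hz⟩
    refine ⟨star z, ?_⟩
    have : ((u⁻¹ : U3) : Matrix (Fin 3) (Fin 3) ℂ) = star (u : Matrix (Fin 3) (Fin 3) ℂ) := rfl
    rw [this, hz, star_smul, star_one]

instance scalars_normal : scalars.Normal where
  conj_mem := by
    rintro u ⟨z, hz⟩ v
    refine ⟨z, ?_⟩
    have h1 : ((v * u * v⁻¹ : U3) : Matrix (Fin 3) (Fin 3) ℂ)
        = (v : Matrix (Fin 3) (Fin 3) ℂ) * u * ((v⁻¹ : U3) : Matrix (Fin 3) (Fin 3) ℂ) := rfl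
    have h2 : (v : Matrix (Fin 3) (Fin 3) ℂ) * ((v⁻¹ : U3) : Matrix (Fin 3) (Fin 3) ℂ) = 1 := by
      have := congrArg (fun w : U3 => (w : Matrix (Fin 3) (Fin 3) ℂ)) (mul_inv_cancel v)
      simp
    rw [h1, hz, mul_smul_comm, mul_one, smul_mul_assoc, h2]

/-- `PU(3) = U(3) / U(1)`, the group of real points of `G`. -/
abbrev PU3 : Type := U3 ⧸ scalars

/-- The field `ℚ(i)` inside `ℂ`, as a set. -/
def Qi : Set ℂ := {z | ∃ a b : ℚ, z = (a : ℂ) + (b : ℂ) * Complex.I}

/-- A complex matrix with all entries in `ℚ(i)`. -/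
def IsQiMatrix (X : Matrix (Fin 3) (Fin 3) ℂ) : Prop := ∀ i j, X i j ∈ Qi

/-- The rational points `G(ℚ) ⊆ G(ℝ) = PU(3)`: classes `[u]` such that conjugation by `u`
preserves `M_3(ℚ(i))`. -/
def IsRationalPoint (p : PU3) : Prop :=
  ∃ u : U3, (u : PU3) = p ∧
    ∀ X : Matrix (Fin 3) (Fin 3) ℂ, IsQiMatrix X →
      IsQiMatrix ((u : Matrix (Fin 3) (Fin 3) ℂ) * X * star (u : Matrix (Fin 3) (Fin 3) ℂ))

/-- The relator `a_1 b_1 a_1⁻¹ b_1⁻¹ ⋯ a_g b_g a_g⁻¹ b_g⁻¹`, where `a_i = (i, false)` and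
`b_i = (i, true)`. -/
def surfaceRelator (g : ℕ) : FreeGroup (Fin g × Bool) :=
  (List.ofFn fun i : Fin g =>
    FreeGroup.of (i, false) * FreeGroup.of (i, true) * (FreeGroup.of (i, false))⁻¹
      * (FreeGroup.of (i, true))⁻¹).prod

/-- The fundamental group of a closed orientable surface of genus `g`. -/
abbrev SurfaceGroup (g : ℕ) : Type := PresentedGroup {surfaceRelator g}

/-- The representation variety `Hom(π₁(S_g), G(ℝ))`. -/
abbrev Rep (g : ℕ) : Type := SurfaceGroup g →* PU3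

/-- The Euclidean topology on `Hom(π₁(S_g), G(ℝ))` (pointwise convergence). -/
noncomputable instance repTopology (g : ℕ) : TopologicalSpace (Rep g) :=
  TopologicalSpace.induced (fun ρ => (ρ : SurfaceGroup g → PU3)) inferInstance

/-- The entries of the adjoint representation of `PU(3)` on `M_3(ℂ)`:
`adEntry [u] a k c l = u_{ak} * conj u_{cl}` is the `(a, c)` entry of `u E_{kl} u^*`. -/
noncomputable def adEntry (p : PU3) (a k c l : Fin 3) : ℂ :=
  Quotient.liftOn' p
    (fun u : U3 => (u : Matrix (Fin 3) (Fin 3) ℂ) a k * star ((u : Matrix (Fin 3) (Fin 3) ℂ) c l))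
    (by
      intro u v huv
      rw [QuotientGroup.leftRel_apply] at huv
      obtain ⟨z, hz⟩ := huv
      have hv : (v : Matrix (Fin 3) (Fin 3) ℂ) = z • (u : Matrix (Fin 3) (Fin 3) ℂ) := by
        have h1 : (v : Matrix (Fin 3) (Fin 3) ℂ)
            = (u : Matrix (Fin 3) (Fin 3) ℂ) * ((u⁻¹ * v : U3) : Matrix (Fin 3) (Fin 3) ℂ) := by
          rw [← Submonoid.coe_mul, mul_inv_cancel_left]
        rw [h1, hz, mul_smul_comm, mul_one]
      have hzz : z * star z = 1 := by
        have hmem := (u⁻¹ * v : U3).2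
        rw [Matrix.mem_unitaryGroup_iff, hz, star_smul, star_one, smul_mul_smul_comm, mul_one]
          at hmem
        have := congrFun (congrFun hmem 0) 0
        simpa using this
      show (u : Matrix (Fin 3) (Fin 3) ℂ) a k * star ((u : Matrix (Fin 3) (Fin 3) ℂ) c l)
        = (v : Matrix (Fin 3) (Fin 3) ℂ) a k * star ((v : Matrix (Fin 3) (Fin 3) ℂ) c l)
      rw [hv, Matrix.smul_apply, Matrix.smul_apply, smul_eq_mul, smul_eq_mul, star_mul']
      calc (u : Matrix (Fin 3) (Fin 3) ℂ) a k * star ((u : Matrix (Fin 3) (Fin 3) ℂ) c l)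
          = (z * star z) * ((u : Matrix (Fin 3) (Fin 3) ℂ) a k
              * star ((u : Matrix (Fin 3) (Fin 3) ℂ) c l)) := by rw [hzz, one_mul]
        _ = _ := by ring)

/-- Polynomial functions on `Hom(π₁(S_g), G(ℝ))`: real polynomials in the real and imaginary parts
of the matrix entries of `Ad ρ(a_i)`, `Ad ρ(b_i)`. -/
noncomputable def polynomialFunctions (g : ℕ) : Subalgebra ℝ (Rep g → ℝ) :=
  Algebra.adjoin ℝ
    {f | ∃ (x : Fin g × Bool) (a k c l : Fin 3),
      f = (fun ρ => (adEntry (ρ (PresentedGroup.of x)) a k c l).re) ∨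
      f = (fun ρ => (adEntry (ρ (PresentedGroup.of x)) a k c l).im)}

/-- Zariski density of a subset of `Hom(π₁(S_g), G(ℝ))`. -/
def IsZariskiDense {g : ℕ} (Ω : Set (Rep g)) : Prop :=
  ∀ f ∈ polynomialFunctions g, (∀ ρ ∈ Ω, f ρ = 0) → ∀ ρ, f ρ = 0

/-- `ρ'` is conjugate to `ρ` under `G(ℝ)`. -/
def IsConjRep {g : ℕ} (ρ ρ' : Rep g) : Prop := ∃ h : PU3, ∀ γ, ρ' γ = h * ρ γ * h⁻¹

/-- The conjugation relation on a set `Ω` of representations. -/
def conjSetoid {g : ℕ} (Ω : Set (Rep g)) : Setoid Ω where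
  r ρ ρ' := IsConjRep (ρ : Rep g) (ρ' : Rep g)
  iseqv :=
    { refl := fun ρ => ⟨1, fun γ => by simp⟩
      symm := by
        rintro ρ ρ' ⟨h, hh⟩
        exact ⟨h⁻¹, fun γ => by rw [hh]; group⟩
      trans := by
        rintro ρ ρ' ρ'' ⟨h, hh⟩ ⟨k, hk⟩
        exact ⟨k * h, fun γ => by rw [hk, hh]; group⟩ }

/-- The quotient `Ω / G(ℝ)`, with the quotient topology. -/
abbrev CharQuotient {g : ℕ} (Ω : Set (Rep g)) : Type := Quotient (conjSetoid Ω)

/-- The class of `ρ` in `Ω / G(ℝ)`. -/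
def classOf {g : ℕ} (Ω : Set (Rep g)) (ρ : Ω) : CharQuotient Ω := Quotient.mk (conjSetoid Ω) ρ

/-- `ρ` is conjugate by an element of `G(ℝ)` to a representation with image in `G(ℚ)`. -/
def IsConjIntoRational {g : ℕ} (ρ : Rep g) : Prop :=
  ∃ h : PU3, ∀ γ, IsRationalPoint (h * ρ γ * h⁻¹)

end Pool.Agent.Lib.MP_52c00a_gt
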