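import Pool.Agent.Lib.MP_52c00a_gt.Defs

set_option autoImplicit false

open Matrix

namespace Pool.Agent.Lib.MP_52c00a_gt

/-! ### The proof -/

lemma adEntry_mk (u : U3) (a k c l : Fin 3) :
    adEntry (u : PU3) a k c l
      = (u : Matrix (Fin 3) (Fin 3) ℂ) a k * star ((u : Matrix (Fin 3) (Fin 3) ℂ) c l) := rfl

/-- The commutator of lifts, as a function on `PU(3) × PU(3)`. -/
noncomputable def commMat (p q : PU3) : Matrix (Fin 3) (Fin 3) ℂ :=
  fun a e => ∑ b, ∑ c, ∑ d, adEntry p a b d c * adEntry q b c e d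

lemma commMat_mk (u v : U3) :
    commMat (u : PU3) (v : PU3) = ((u * v * u⁻¹ * v⁻¹ : U3) : Matrix (Fin 3) (Fin 3) ℂ) := by
  have h : ((u * v * u⁻¹ * v⁻¹ : U3) : Matrix (Fin 3) (Fin 3) ℂ)
      = (u : Matrix (Fin 3) (Fin 3) ℂ) * (v : Matrix (Fin 3) (Fin 3) ℂ)
        * star (u : Matrix (Fin 3) (Fin 3) ℂ) * star (v : Matrix (Fin 3) (Fin 3) ℂ) := rfl
  rw [h]
  ext a e
  simp only [commMat, adEntry_mk, Matrix.mul_apply, Matrix.star_apply, Fin.sum_univ_three]
  ring

/-- product of commutators of lifts -/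
noncomputable def obs {g : ℕ} (ρ : Rep g) : Matrix (Fin 3) (Fin 3) ℂ :=
  (List.ofFn fun i : Fin g =>
    commMat (ρ (PresentedGroup.of (i, false))) (ρ (PresentedGroup.of (i, true)))).prod

/-- the same product, in the unitary group, for a choice of lifts -/
def liftProd {g : ℕ} (u : Fin g × Bool → U3) : U3 :=
  (List.ofFn fun i : Fin g =>
    u (i, false) * u (i, true) * (u (i, false))⁻¹ * (u (i, true))⁻¹).prod

lemma liftProd_eq {g : ℕ} (u : Fin g × Bool → U3) :
    liftProd u = FreeGroup.lift u (surfaceRelator g) := by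
  unfold liftProd surfaceRelator
  rw [map_list_prod, List.map_ofFn]
  congr 2
  funext i
  simp

lemma obs_eq {g : ℕ} (ρ : Rep g) (u : Fin g × Bool → U3)
    (hu : ∀ x, (u x : PU3) = ρ (PresentedGroup.of x)) :
    obs ρ = (liftProd u : Matrix (Fin 3) (Fin 3) ℂ) := by
  unfold obs liftProd
  have h : (fun i : Fin g => commMat (ρ (PresentedGroup.of (i, false)))
      (ρ (PresentedGroup.of (i, true))))
      = fun i => ((u (i, false) * u (i, true) * (u (i, false))⁻¹ * (u (i, true))⁻¹ : U3) :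
        Matrix (Fin 3) (Fin 3) ℂ) := by
    funext i
    rw [← hu, ← hu, commMat_mk]
  rw [h, Submonoid.coe_list_prod, List.map_ofFn]
  rfl

lemma exists_lift {g : ℕ} (ρ : Rep g) :
    ∃ u : Fin g × Bool → U3, ∀ x, (u x : PU3) = ρ (PresentedGroup.of x) :=
  ⟨fun x => (ρ (PresentedGroup.of x)).out, fun _ => Quotient.out_eq' _⟩

lemma lift_surfaceRelator {g : ℕ} (ρ : Rep g) :
    FreeGroup.lift (fun x => ρ (PresentedGroup.of x)) (surfaceRelator g) = 1 := by
  have h : FreeGroup.lift (fun x => ρ (PresentedGroup.of x))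
      = ρ.comp (PresentedGroup.mk {surfaceRelator g}) := by
    ext x
    simp [PresentedGroup.of]
  rw [h, MonoidHom.comp_apply, PresentedGroup.one_of_mem (Set.mem_singleton _), map_one]

lemma liftProd_mem {g : ℕ} (ρ : Rep g) (u : Fin g × Bool → U3)
    (hu : ∀ x, (u x : PU3) = ρ (PresentedGroup.of x)) : liftProd u ∈ scalars := by
  rw [← QuotientGroup.eq_one_iff, liftProd_eq]
  have h : (QuotientGroup.mk' scalars).comp (FreeGroup.lift u)
      = FreeGroup.lift (fun x => ρ (PresentedGroup.of x)) := by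
    ext x
    simp [hu]
  have h2 := congrArg (fun φ => φ (surfaceRelator g)) h
  simp only [MonoidHom.comp_apply, lift_surfaceRelator] at h2
  exact h2

/-- the obstruction number (a cube root of unity) of a representation -/
noncomputable def z {g : ℕ} (ρ : Rep g) : ℂ := obs ρ 0 0

lemma obs_eq_z {g : ℕ} (ρ : Rep g) : obs ρ = z ρ • (1 : Matrix (Fin 3) (Fin 3) ℂ) := by
  obtain ⟨u, hu⟩ := exists_lift ρ
  obtain ⟨w, hw⟩ := liftProd_mem ρ u hu
  have h := obs_eq ρ u hu
  rw [hw] at h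
  have hz : z ρ = w := by
    unfold z
    rw [h]
    simp
  rw [hz, h]

lemma det_commutator (u v : U3) :
    ((u * v * u⁻¹ * v⁻¹ : U3) : Matrix (Fin 3) (Fin 3) ℂ).det = 1 := by
  have h : ((u * v * u⁻¹ * v⁻¹ : U3) : Matrix (Fin 3) (Fin 3) ℂ)
      = (u : Matrix (Fin 3) (Fin 3) ℂ) * (v : Matrix (Fin 3) (Fin 3) ℂ)
        * star (u : Matrix (Fin 3) (Fin 3) ℂ) * star (v : Matrix (Fin 3) (Fin 3) ℂ) := rfl
  have h1 : (u : Matrix (Fin 3) (Fin 3) ℂ).det
      * (star (u : Matrix (Fin 3) (Fin 3) ℂ)).det = 1 := by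
    rw [← Matrix.det_mul, Matrix.mem_unitaryGroup_iff.1 u.2, Matrix.det_one]
  have h2 : (v : Matrix (Fin 3) (Fin 3) ℂ).det
      * (star (v : Matrix (Fin 3) (Fin 3) ℂ)).det = 1 := by
    rw [← Matrix.det_mul, Matrix.mem_unitaryGroup_iff.1 v.2, Matrix.det_one]
  rw [h]
  simp only [Matrix.det_mul]
  linear_combination (v : Matrix (Fin 3) (Fin 3) ℂ).det
      * (star (v : Matrix (Fin 3) (Fin 3) ℂ)).det * h1 + h2

lemma det_liftProd {g : ℕ} (u : Fin g × Bool → U3) :
    (liftProd u : Matrix (Fin 3) (Fin 3) ℂ).det = 1 := by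
  unfold liftProd
  rw [Submonoid.coe_list_prod, ← Matrix.coe_detMonoidHom, map_list_prod]
  apply List.prod_eq_one
  intro x hx
  simp only [List.mem_map, List.mem_ofFn] at hx
  obtain ⟨_, ⟨_, ⟨i, rfl⟩, rfl⟩, rfl⟩ := hx
  exact det_commutator _ _

lemma z_pow {g : ℕ} (ρ : Rep g) : z ρ ^ 3 = 1 := by
  obtain ⟨u, hu⟩ := exists_lift ρ
  have h := obs_eq ρ u hu
  have h2 := det_liftProd u
  rw [← h, obs_eq_z, Matrix.det_smul, Matrix.det_one, mul_one] at h2
  simpa using h2

/-! #### conjugation invariance -/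

lemma z_conj {g : ℕ} (ρ ρ' : Rep g) (h : IsConjRep ρ ρ') : z ρ' = z ρ := by
  obtain ⟨p, hp⟩ := h
  obtain ⟨u, hu⟩ := exists_lift ρ
  obtain ⟨w, rfl⟩ := QuotientGroup.mk_surjective p
  have hu' : ∀ x, ((w * u x * w⁻¹ : U3) : PU3) = ρ' (PresentedGroup.of x) := by
    intro x
    rw [hp, ← hu]
    rfl
  have h1 : liftProd (fun x => w * u x * w⁻¹) = w * liftProd u * w⁻¹ := by
    rw [liftProd_eq, liftProd_eq]
    have : FreeGroup.lift (fun x => w * u x * w⁻¹)
        = ((MulAut.conj w).toMonoidHom).comp (FreeGroup.lift u) := by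
      ext x
      simp [MulAut.conj_apply]
    rw [this]
    simp [MulAut.conj_apply]
  have h2 := obs_eq ρ' _ hu'
  have h3 := obs_eq ρ u hu
  rw [h1] at h2
  have h4 : ((w * liftProd u * w⁻¹ : U3) : Matrix (Fin 3) (Fin 3) ℂ)
      = (w : Matrix (Fin 3) (Fin 3) ℂ) * (liftProd u : Matrix (Fin 3) (Fin 3) ℂ)
        * star (w : Matrix (Fin 3) (Fin 3) ℂ) := rfl
  rw [h4, ← h3, obs_eq_z ρ, mul_smul_comm, mul_one, smul_mul_assoc,
    Matrix.mem_unitaryGroup_iff.1 w.2, obs_eq_z ρ'] at h2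
  have := congrFun (congrFun h2 0) 0
  simpa using this

/-! #### rational representations have trivial obstruction -/

/-- `ℚ(i)` as a subring -/
def QiRing : Subring ℂ where
  carrier := Qi
  mul_mem' := by
    rintro x y ⟨a, b, rfl⟩ ⟨c, d, rfl⟩
    refine ⟨a * c - b * d, a * d + b * c, ?_⟩
    push_cast
    linear_combination (b : ℂ) * d * Complex.I_mul_I
  one_mem' := ⟨1, 0, by simp⟩
  add_mem' := by
    rintro x y ⟨a, b, rfl⟩ ⟨c, d, rfl⟩
    refine ⟨a + c, b + d, ?_⟩
    push_cast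
    ring
  zero_mem' := ⟨0, 0, by simp⟩
  neg_mem' := by
    rintro x ⟨a, b, rfl⟩
    refine ⟨-a, -b, ?_⟩
    push_cast
    ring

lemma adEntry_mem (p : PU3) (hp : IsRationalPoint p) (a k c l : Fin 3) :
    adEntry p a k c l ∈ QiRing := by
  obtain ⟨u, rfl, hu⟩ := hp
  have h := hu (Matrix.single k l (1 : ℂ)) (by
    intro i j
    rw [Matrix.single_apply]
    split_ifs
    · exact QiRing.one_mem
    · exact QiRing.zero_mem) a c
  have h2 : ((u : Matrix (Fin 3) (Fin 3) ℂ) * Matrix.single k l (1 : ℂ)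
      * star (u : Matrix (Fin 3) (Fin 3) ℂ)) a c
      = (u : Matrix (Fin 3) (Fin 3) ℂ) a k * star ((u : Matrix (Fin 3) (Fin 3) ℂ) c l) := by
    rw [Matrix.mul_apply]
    simp only [Matrix.star_apply]
    rw [Finset.sum_eq_single l]
    · simp
    · intro b _ hb
      simp [Matrix.mul_apply, hb.symm]
    · simp
  rw [adEntry_mk, ← h2]
  exact h

lemma list_prod_mem {L : List (Matrix (Fin 3) (Fin 3) ℂ)}
    (hL : ∀ X ∈ L, ∀ i j, X i j ∈ QiRing) : ∀ i j, L.prod i j ∈ QiRing := by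
  induction L with
  | nil =>
    intro i j
    rw [List.prod_nil, Matrix.one_apply]
    split_ifs
    · exact QiRing.one_mem
    · exact QiRing.zero_mem
  | cons X L ih =>
    intro i j
    rw [List.prod_cons, Matrix.mul_apply]
    refine Subring.sum_mem _ fun k _ => Subring.mul_mem _ (hL X (by simp) i k) (ih ?_ k j)
    intro Y hY
    exact hL Y (by simp [hY])

lemma z_mem_of_rational {g : ℕ} (ρ : Rep g) (h : ∀ γ, IsRationalPoint (ρ γ)) : z ρ ∈ QiRing := by
  unfold z obs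
  apply list_prod_mem
  intro X hX i j
  rw [List.mem_ofFn] at hX
  obtain ⟨m, rfl⟩ := hX
  unfold commMat
  refine Subring.sum_mem _ fun b _ => Subring.sum_mem _ fun c _ => Subring.sum_mem _ fun d _ => ?_
  exact Subring.mul_mem _ (adEntry_mem _ (h _) _ _ _ _) (adEntry_mem _ (h _) _ _ _ _)

lemma eq_one_of_mem_Qi (w : ℂ) (h : w ∈ QiRing) (h3 : w ^ 3 = 1) : w = 1 := by
  obtain ⟨a, b, rfl⟩ := h
  by_contra hne
  have h1 : ((a : ℂ) + b * Complex.I) ^ 2 + ((a : ℂ) + b * Complex.I) + 1 = 0 := by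
    have h2 : ((a : ℂ) + b * Complex.I - 1)
        * (((a : ℂ) + b * Complex.I) ^ 2 + ((a : ℂ) + b * Complex.I) + 1) = 0 := by
      linear_combination h3
    rcases mul_eq_zero.1 h2 with h | h
    · exact absurd (sub_eq_zero.1 h) hne
    · exact h
  have hre := congrArg Complex.re h1
  have him := congrArg Complex.im h1
  simp only [pow_two, Complex.add_re, Complex.mul_re, Complex.add_im, Complex.mul_im,
    Complex.I_re, Complex.I_im, Complex.ratCast_re, Complex.ratCast_im, Complex.one_re,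
    Complex.one_im, Complex.zero_re, Complex.zero_im, mul_zero, mul_one, add_zero,
    zero_add, sub_zero] at hre him
  have hre' : (a * a - b * b + a + 1 : ℚ) = 0 := by exact_mod_cast hre
  have him' : (a * b + b * a + b : ℚ) = 0 := by exact_mod_cast him
  have hb : b * (2 * a + 1) = 0 := by linear_combination him'
  rcases mul_eq_zero.1 hb with hb | ha
  · rw [hb] at hre'
    nlinarith [sq_nonneg (2 * a + 1)]
  · have ha' : a = -1 / 2 := by linarith
    rw [ha'] at hre'
    have h3' : (2 * b) ^ 2 = 3 := by linarith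
    have hirr : Irrational (Real.sqrt 3) := by
      have := Nat.Prime.irrational_sqrt (p := 3) (by norm_num)
      simpa using this
    apply hirr
    have hr : ((2 * b : ℚ) : ℝ) ^ 2 = 3 := by exact_mod_cast h3'
    rcases le_or_gt 0 (2 * b : ℚ) with hs | hs
    · refine ⟨2 * b, ?_⟩
      have hs' : (0 : ℝ) ≤ ((2 * b : ℚ) : ℝ) := by exact_mod_cast hs
      rw [← hr, Real.sqrt_sq hs']
    · refine ⟨-(2 * b), ?_⟩
      have hs' : (0 : ℝ) ≤ ((-(2 * b) : ℚ) : ℝ) := by
        have : (0 : ℚ) ≤ -(2 * b) := by linarith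
        exact_mod_cast this
      have hr' : ((-(2 * b) : ℚ) : ℝ) ^ 2 = 3 := by
        rw [← hr]; push_cast; ring
      rw [← hr', Real.sqrt_sq hs']

/-- conjugate of a representation -/
def conjRep {g : ℕ} (h : PU3) (ρ : Rep g) : Rep g := ((MulAut.conj h).toMonoidHom).comp ρ

lemma conjRep_apply {g : ℕ} (h : PU3) (ρ : Rep g) (γ : SurfaceGroup g) :
    conjRep h ρ γ = h * ρ γ * h⁻¹ := rfl

lemma z_eq_one_of_rational {g : ℕ} (ρ : Rep g) (h : IsConjIntoRational ρ) : z ρ = 1 := by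
  obtain ⟨p, hp⟩ := h
  have h1 : IsConjRep ρ (conjRep p ρ) := ⟨p, fun γ => rfl⟩
  rw [← z_conj _ _ h1]
  exact eq_one_of_mem_Qi _ (z_mem_of_rational _ hp) (z_pow _)

/-! #### continuity -/

lemma continuous_adEntry (a k c l : Fin 3) : Continuous fun p : PU3 => adEntry p a k c l := by
  rw [← (QuotientGroup.isOpenQuotientMap_mk (N := scalars)).continuous_comp_iff]
  show Continuous fun u : U3 =>
    (u : Matrix (Fin 3) (Fin 3) ℂ) a k * star ((u : Matrix (Fin 3) (Fin 3) ℂ) c l)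
  have h : ∀ i j, Continuous fun u : U3 => (u : Matrix (Fin 3) (Fin 3) ℂ) i j := fun i j =>
    Continuous.matrix_elem continuous_subtype_val i j
  exact (h a k).mul (continuous_star.comp (h c l))

lemma continuous_eval {g : ℕ} (γ : SurfaceGroup g) : Continuous fun ρ : Rep g => ρ γ :=
  (continuous_apply γ).comp continuous_induced_dom

lemma continuous_list_prod_entry {X : Type} [TopologicalSpace X] {n : ℕ}
    (F : Fin n → X → Matrix (Fin 3) (Fin 3) ℂ) (hF : ∀ i, Continuous (F i)) :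
    Continuous fun x => (List.ofFn fun i => F i x).prod := by
  induction n with
  | zero => simpa using continuous_const
  | succ n ih =>
    simp only [List.ofFn_succ, List.prod_cons]
    exact (hF 0).mul (ih (fun i => F i.succ) fun i => hF _)

lemma continuous_z (g : ℕ) : Continuous (z : Rep g → ℂ) := by
  unfold z obs
  refine Continuous.matrix_elem ?_ 0 0
  refine continuous_list_prod_entry
    (fun i (ρ : Rep g) => commMat (ρ (PresentedGroup.of (i, false)))
      (ρ (PresentedGroup.of (i, true)))) fun i => ?_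
  refine continuous_matrix fun a e => ?_
  unfold commMat
  refine continuous_finsetSum _ fun b _ => continuous_finsetSum _ fun c _ =>
    continuous_finsetSum _ fun d _ => ?_
  exact ((continuous_adEntry _ _ _ _).comp (continuous_eval _)).mul
    ((continuous_adEntry _ _ _ _).comp (continuous_eval _))

/-! #### polynomiality -/

/-- complex valued polynomial functions -/
def IsPoly {g : ℕ} (f : Rep g → ℂ) : Prop :=
  (fun ρ => (f ρ).re) ∈ polynomialFunctions g ∧ (fun ρ => (f ρ).im) ∈ polynomialFunctions g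

lemma IsPoly.add {g : ℕ} {f f' : Rep g → ℂ} (h : IsPoly f) (h' : IsPoly f') :
    IsPoly (fun ρ => f ρ + f' ρ) :=
  ⟨Subalgebra.add_mem _ h.1 h'.1, Subalgebra.add_mem _ h.2 h'.2⟩

lemma IsPoly.mul {g : ℕ} {f f' : Rep g → ℂ} (h : IsPoly f) (h' : IsPoly f') :
    IsPoly (fun ρ => f ρ * f' ρ) := by
  constructor
  · have := Subalgebra.sub_mem _ (Subalgebra.mul_mem _ h.1 h'.1) (Subalgebra.mul_mem _ h.2 h'.2)
    exact this
  · have := Subalgebra.add_mem _ (Subalgebra.mul_mem _ h.1 h'.2) (Subalgebra.mul_mem _ h.2 h'.1)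
    exact this

lemma isPoly_real_const {g : ℕ} (c : ℝ) : (fun _ : Rep g => c) ∈ polynomialFunctions g :=
  Subalgebra.algebraMap_mem _ c

lemma isPoly_const {g : ℕ} (c : ℂ) : IsPoly (fun _ : Rep g => c) :=
  ⟨isPoly_real_const _, isPoly_real_const _⟩

lemma IsPoly.sum {g : ℕ} {ι : Type} (s : Finset ι) {f : ι → Rep g → ℂ}
    (h : ∀ i ∈ s, IsPoly (f i)) : IsPoly (fun ρ => ∑ i ∈ s, f i ρ) := by
  classical
  induction s using Finset.induction_on with
  | empty => simpa using isPoly_const 0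
  | insert a s ha ih =>
    simp only [Finset.sum_insert ha]
    exact (h a (by simp)).add (ih fun i hi => h i (by simp [hi]))

lemma isPoly_adEntry {g : ℕ} (x : Fin g × Bool) (a k c l : Fin 3) :
    IsPoly (fun ρ : Rep g => adEntry (ρ (PresentedGroup.of x)) a k c l) :=
  ⟨Algebra.subset_adjoin ⟨x, a, k, c, l, Or.inl rfl⟩,
    Algebra.subset_adjoin ⟨x, a, k, c, l, Or.inr rfl⟩⟩

lemma isPoly_list_prod {g n : ℕ} (F : Fin n → Rep g → Matrix (Fin 3) (Fin 3) ℂ)
    (hF : ∀ i a b, IsPoly (fun ρ => F i ρ a b)) :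
    ∀ a b, IsPoly (fun ρ => (List.ofFn fun i => F i ρ).prod a b) := by
  induction n with
  | zero =>
    intro a b
    simpa using isPoly_const _
  | succ n ih =>
    intro a b
    simp only [List.ofFn_succ, List.prod_cons, Matrix.mul_apply]
    exact IsPoly.sum _ fun k _ => (hF 0 a k).mul (ih (fun i => F i.succ) (fun i => hF _) k b)

lemma isPoly_z (g : ℕ) : IsPoly (z : Rep g → ℂ) := by
  unfold z obs
  refine isPoly_list_prod
    (fun i (ρ : Rep g) => commMat (ρ (PresentedGroup.of (i, false)))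
      (ρ (PresentedGroup.of (i, true)))) (fun i a e => ?_) 0 0
  unfold commMat
  exact IsPoly.sum _ fun b _ => IsPoly.sum _ fun c _ => IsPoly.sum _ fun d _ =>
    (isPoly_adEntry _ _ _ _ _).mul (isPoly_adEntry _ _ _ _ _)

/-! #### a representation with non-trivial obstruction -/

lemma exists_cube_root : ∃ w : ℂ, w ^ 3 = 1 ∧ w ≠ 1 ∧ w * star w = 1 := by
  have h := Complex.isPrimitiveRoot_exp 3 (by norm_num)
  refine ⟨_, h.pow_eq_one, h.ne_one (by norm_num), ?_⟩
  have hn : ‖Complex.exp (2 * (Real.pi : ℂ) * Complex.I / ((3 : ℕ) : ℂ))‖ = 1 :=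
    Complex.norm_eq_one_of_pow_eq_one h.pow_eq_one (by norm_num)
  rw [Complex.star_def, Complex.mul_conj, Complex.normSq_eq_norm_sq, hn]
  simp

lemma exists_pair : ∃ (u v : U3) (w : ℂ), w ≠ 1 ∧
    ((u * v * u⁻¹ * v⁻¹ : U3) : Matrix (Fin 3) (Fin 3) ℂ)
      = w • (1 : Matrix (Fin 3) (Fin 3) ℂ) := by
  obtain ⟨w, h3, h1, hs⟩ := exists_cube_root
  have hs2 : star w = w ^ 2 := by
    have hw : w ≠ 0 := by
      rintro rfl
      norm_num at h3
    have : w * star w = w * w ^ 2 := by rw [hs, ← h3]; ring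
    exact mul_left_cancel₀ hw this
  have hs2' : (starRingEnd ℂ) w = w ^ 2 := hs2
  have hs4 : w ^ 4 = w := by
    have : w ^ 4 = w ^ 3 * w := by ring
    rw [this, h3, one_mul]
  have hsu : star (!![1, 0, 0; 0, w, 0; 0, 0, w ^ 2] : Matrix (Fin 3) (Fin 3) ℂ)
      = !![1, 0, 0; 0, w ^ 2, 0; 0, 0, w] := by
    ext i j
    rw [Matrix.star_apply]
    fin_cases i <;> fin_cases j <;> simp [hs2']
    rw [← pow_mul]; exact hs4
  have hsv : star (!![0, 0, 1; 1, 0, 0; 0, 1, 0] : Matrix (Fin 3) (Fin 3) ℂ)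
      = !![0, 1, 0; 0, 0, 1; 1, 0, 0] := by
    ext i j
    rw [Matrix.star_apply]
    fin_cases i <;> fin_cases j <;> simp
  have hu : (!![1, 0, 0; 0, w, 0; 0, 0, w ^ 2] : Matrix (Fin 3) (Fin 3) ℂ)
      ∈ Matrix.unitaryGroup (Fin 3) ℂ := by
    rw [Matrix.mem_unitaryGroup_iff, hsu]
    ext i j
    fin_cases i <;> fin_cases j <;>
      simp [Matrix.mul_apply, Fin.sum_univ_three]
    · rw [← h3]; ring
    · rw [← h3]; ring
  have hv : (!![0, 0, 1; 1, 0, 0; 0, 1, 0] : Matrix (Fin 3) (Fin 3) ℂ)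
      ∈ Matrix.unitaryGroup (Fin 3) ℂ := by
    rw [Matrix.mem_unitaryGroup_iff, hsv]
    ext i j
    fin_cases i <;> fin_cases j <;>
      simp [Matrix.mul_apply, Fin.sum_univ_three]
  refine ⟨⟨_, hu⟩, ⟨_, hv⟩, w, h1, ?_⟩
  have h : ((⟨_, hu⟩ * ⟨_, hv⟩ * (⟨_, hu⟩ : U3)⁻¹ * (⟨_, hv⟩ : U3)⁻¹ : U3) :
        Matrix (Fin 3) (Fin 3) ℂ)
      = !![1, 0, 0; 0, w, 0; 0, 0, w ^ 2] * !![0, 0, 1; 1, 0, 0; 0, 1, 0]
        * star (!![1, 0, 0; 0, w, 0; 0, 0, w ^ 2] : Matrix (Fin 3) (Fin 3) ℂ)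
        * star (!![0, 0, 1; 1, 0, 0; 0, 1, 0] : Matrix (Fin 3) (Fin 3) ℂ) := rfl
  rw [h, hsu, hsv]
  ext i j
  fin_cases i <;> fin_cases j <;>
    simp [Matrix.mul_apply, Fin.sum_univ_three]
  · rw [← pow_add, hs4]

/-- the representation with `a_1 ↦ p`, `b_1 ↦ q`, all other generators trivial -/
lemma exists_rep {g : ℕ} (hg : 1 ≤ g) : ∃ ρ : Rep g, z ρ ≠ 1 := by
  obtain ⟨u, v, w, hw, huv⟩ := exists_pair
  obtain ⟨n, rfl⟩ : ∃ n, g = n + 1 := ⟨g - 1, by omega⟩
  set U : Fin (n + 1) × Bool → U3 := fun x =>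
    if x = (0, false) then u else if x = (0, true) then v else 1 with hU
  have hprod : liftProd U = u * v * u⁻¹ * v⁻¹ := by
    unfold liftProd
    rw [List.ofFn_succ, List.prod_cons]
    have h1 : (fun i : Fin n => U (i.succ, false) * U (i.succ, true) * (U (i.succ, false))⁻¹
        * (U (i.succ, true))⁻¹) = fun _ => (1 : U3) := by
      funext i
      have h0 : ∀ b, U (i.succ, b) = 1 := by
        intro b
        simp [hU, Fin.succ_ne_zero]
      rw [h0, h0]
      simp
    rw [h1]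
    have h2 : U (0, false) = u := by simp [hU]
    have h3 : U (0, true) = v := by simp [hU]
    rw [h2, h3]
    simp
  have hmem : liftProd U ∈ scalars := ⟨w, by rw [hprod, huv]⟩
  have hrel : ∀ r ∈ ({surfaceRelator (n + 1)} : Set (FreeGroup (Fin (n + 1) × Bool))),
      FreeGroup.lift (fun x => (U x : PU3)) r = 1 := by
    intro r hr
    rw [Set.mem_singleton_iff] at hr
    subst hr
    have h : (QuotientGroup.mk' scalars).comp (FreeGroup.lift U)
        = FreeGroup.lift (fun x => (U x : PU3)) := by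
      ext x
      simp
    rw [← h, MonoidHom.comp_apply, ← liftProd_eq]
    exact (QuotientGroup.eq_one_iff _).2 hmem
  refine ⟨PresentedGroup.toGroup hrel, ?_⟩
  have h := obs_eq (PresentedGroup.toGroup hrel) U (fun x => by rw [PresentedGroup.toGroup.of])
  rw [hprod, huv] at h
  unfold z
  rw [h]
  simpa using hw

/-- The main theorem: negative answer.  Let `G = PU_3` for `ℚ(i)/ℚ`.  For every genus `g ≥ 2` and every
conjugation-stable Zariski dense `Ω ⊆ Hom(π₁(S_g), G(ℝ))` there is a connected component of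
`Ω / G(ℝ)` containing no class of a representation conjugate into `G(ℚ)`. -/
theorem main (g : ℕ) (hg : 2 ≤ g) (Ω : Set (Rep g))
    (_hconj : ∀ ρ ∈ Ω, ∀ ρ', IsConjRep ρ ρ' → ρ' ∈ Ω) (hdense : IsZariskiDense Ω) :
    ∃ x : CharQuotient Ω, ∀ ρ : Ω,
      classOf Ω ρ ∈ connectedComponent x → ¬ IsConjIntoRational (ρ : Rep g) := by
  obtain ⟨ρ₀, hρ₀⟩ := exists_rep (g := g) (by omega)
  have hex : ∃ ρ₁ ∈ Ω, z ρ₁ ≠ 1 := by
    by_contra hcon
    push Not at hcon
    apply hρ₀
    have h1 := hdense (fun ρ => (z ρ - 1).re) (by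
      have := Subalgebra.sub_mem _ (isPoly_z g).1 (isPoly_real_const (g := g) 1)
      exact this) (fun ρ hρ => by simp [hcon ρ hρ]) ρ₀
    have h2 := hdense (fun ρ => (z ρ - 1).im) (by
      have := (isPoly_z g).2
      simpa using this) (fun ρ hρ => by simp [hcon ρ hρ]) ρ₀
    have h3 : z ρ₀ - 1 = 0 := Complex.ext h1 h2
    exact sub_eq_zero.1 h3
  obtain ⟨ρ₁, hρ₁, hz⟩ := hex
  refine ⟨classOf Ω ⟨ρ₁, hρ₁⟩, fun ρ hρ hrat => ?_⟩
  -- the obstruction descends to the quotient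
  let zbar : CharQuotient Ω → ℂ := Quotient.lift (fun ρ : Ω => z (ρ : Rep g))
    (fun a b hab => (z_conj _ _ hab).symm)
  have hcont : Continuous zbar :=
    Continuous.quotient_lift ((continuous_z g).comp continuous_subtype_val) _
  have hfin : (Set.range zbar).Finite := by
    apply Set.Finite.subset (Polynomial.rootSet_finite (Polynomial.X ^ 3 - 1 : Polynomial ℂ) ℂ)
    rintro _ ⟨q, rfl⟩
    obtain ⟨σ, rfl⟩ := Quotient.exists_rep q
    rw [Polynomial.mem_rootSet]
    refine ⟨?_, ?_⟩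
    · exact Polynomial.X_pow_sub_C_ne_zero (by norm_num) (1 : ℂ)
    · have := z_pow (σ : Rep g)
      simp only [map_sub, map_pow, Polynomial.aeval_X, map_one]
      rw [sub_eq_zero]
      exact this
  have hconn : IsPreconnected (zbar '' connectedComponent (classOf Ω ⟨ρ₁, hρ₁⟩)) :=
    isPreconnected_connectedComponent.image _ hcont.continuousOn
  have hsub : (zbar '' connectedComponent (classOf Ω ⟨ρ₁, hρ₁⟩)).Subsingleton :=
    (hfin.countable.isTotallyDisconnected) _ (Set.image_subset_range _ _) hconn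
  have heq : zbar (classOf Ω ρ) = zbar (classOf Ω ⟨ρ₁, hρ₁⟩) :=
    hsub ⟨_, hρ, rfl⟩ ⟨_, mem_connectedComponent, rfl⟩
  have h1 : z (ρ : Rep g) = z ρ₁ := heq
  exact hz (h1 ▸ z_eq_one_of_rational _ hrat)

end Pool.Agent.Lib.MP_52c00a_gt
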